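import Pool.Agent.W323.PT.Stm

/-! PT-Samp: sampling (for project PT of helper323). -/

set_option autoImplicit false

namespace Pool.Agent.W675.PT

open Pool.Agent.W323.PT

open Classical in
theorem cover {α I J : Type} [Fintype α] [Fintype I] [Fintype J] (W : α → ℝ) (hW : ∀ a, 0 ≤ W a)
    (Q : I → α → Prop) (R : J → α → Prop) (h : ∀ a, (∃ i, Q i a) ∨ ∃ j, R j a) :
    ∑ a, W a ≤ ∑ i, mass W (Q i) + ∑ j, mass W (R j) := by
  unfold mass
  rw [Finset.sum_comm (s := (Finset.univ : Finset I)), Finset.sum_comm (s := (Finset.univ : Finset J)),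
    ← Finset.sum_add_distrib]
  apply Finset.sum_le_sum
  intro a _
  have h1 : ∀ i ∈ (Finset.univ : Finset I), 0 ≤ (if Q i a then W a else 0) := by
    intro i _; split_ifs; exacts [hW a, le_refl 0]
  have h2 : ∀ j ∈ (Finset.univ : Finset J), 0 ≤ (if R j a then W a else 0) := by
    intro i _; split_ifs; exacts [hW a, le_refl 0]
  rcases h a with ⟨i, hi⟩ | ⟨j, hj⟩
  · have := Finset.single_le_sum h1 (Finset.mem_univ i)
    rw [if_pos hi] at this
    have h3 := Finset.sum_nonneg h2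
    linarith
  · have := Finset.single_le_sum h2 (Finset.mem_univ j)
    rw [if_pos hj] at this
    have h3 := Finset.sum_nonneg h1
    linarith

open Classical in
theorem mass_false {α : Type} [Fintype α] (W : α → ℝ) (p : α → Prop) (h : ∀ a, ¬ p a) : mass W p = 0 := by
  unfold mass
  apply Finset.sum_eq_zero
  intro a _
  rw [if_neg (h a)]

open Classical in
theorem mass_congr {α : Type} [Fintype α] (W : α → ℝ) (p q : α → Prop) (h : ∀ a, p a ↔ q a) :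
    mass W p = mass W q := by
  have : p = q := funext fun a => propext (h a)
  rw [this]

abbrev Pos1 (m : ℕ) : Type := (Fin 8 → Bool × Fin m) × (Bool × Fin m) × (Bool × Fin m) × Fin m
abbrev Pos2 (m : ℕ) : Type := Fin m × Fin m × Fin m × Bool × Bool × Bool

/-- valid position with a pattern -/
def Q1 {ι : Type} (m : ℕ) (P : Bool → ι → Pt) (q : Pos1 m) (f : Fin m → ι) : Prop :=
  (q.2.1.2 ≠ q.2.2.1.2 ∧ q.2.1.2 ≠ q.2.2.2 ∧ q.2.2.1.2 ≠ q.2.2.2 ∧
    (∀ l, (q.1 l).2 ≠ q.2.1.2 ∧ (q.1 l).2 ≠ q.2.2.1.2 ∧ (q.1 l).2 ≠ q.2.2.2)) ∧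
  Pat (X (P (q.1 0).1 (f (q.1 0).2)) (P (q.1 1).1 (f (q.1 1).2)) (P (q.1 2).1 (f (q.1 2).2))
      (P (q.1 3).1 (f (q.1 3).2)))
    (P (q.1 4).1 (f (q.1 4).2)) (P (q.1 5).1 (f (q.1 5).2)) (P (q.1 6).1 (f (q.1 6).2))
    (P (q.1 7).1 (f (q.1 7).2))
    (P q.2.1.1 (f q.2.1.2)) (P q.2.2.1.1 (f q.2.2.1.2)) (P false (f q.2.2.2)) (P true (f q.2.2.2))

def Q2 {ι : Type} (m : ℕ) (P : Bool → ι → Pt) (q : Pos2 m) (f : Fin m → ι) : Prop :=
  (q.1 ≠ q.2.1 ∧ q.1 ≠ q.2.2.1 ∧ q.2.1 ≠ q.2.2.1) ∧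
  o (P q.2.2.2.1 (f q.1)) (P q.2.2.2.2.1 (f q.2.1)) (P q.2.2.2.2.2 (f q.2.2.1)) = 0

theorem samp : S_One → S_Two → S_Samp := by
  intro hOne hTwo m
  set K1 : ℝ := (Fintype.card (Pos1 m) : ℝ) with hK1
  set K2 : ℝ := (Fintype.card (Pos2 m) : ℝ) with hK2
  have hK1n : 0 ≤ K1 := Nat.cast_nonneg _
  have hK2n : 0 ≤ K2 := Nat.cast_nonneg _
  set β : ℝ := 1 / (2 * (K1 + 2 * K2 + 1)) with hβ
  have hβ0 : 0 < β := by positivity
  refine ⟨β, hβ0, ?_⟩
  intro ι _ w P hw hw1 hlin hpat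
  have hne : Nonempty ι := by
    by_contra hcon
    rw [not_nonempty_iff] at hcon
    rw [Finset.univ_eq_empty, Finset.sum_empty] at hw1
    exact zero_ne_one hw1
  obtain ⟨i0⟩ := hne
  by_contra hno
  push Not at hno
  let W : (Fin m → ι) → ℝ := fun f => ∏ t, w (f t)
  have hW : ∀ f, 0 ≤ W f := fun f => Finset.prod_nonneg fun t _ => hw _
  have hW1 : ∑ f, W f = 1 := by
    have := Fintype.sum_pow w m
    rw [hw1, one_pow] at this
    exact this.symm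
  have hcov : ∀ f : Fin m → ι, (∃ q, Q1 m P q f) ∨ ∃ q, Q2 m P q f := by
    intro f
    by_contra hc
    push Not at hc
    obtain ⟨hc1, hc2⟩ := hc
    let F : ℕ → ι := fun n => if h : n < m then f ⟨n, h⟩ else i0
    have hF : ∀ n (h : n < m), F n = f ⟨n, h⟩ := by
      intro n h
      show (if h : n < m then f ⟨n, h⟩ else i0) = f ⟨n, h⟩
      rw [dif_pos h]
    have hGP : GP m (fun b i => P b (F i)) := by
      intro i j k hij hjk hk b1 b2 b3 h0
      have hj : j < m := by omega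
      have hi : i < m := by omega
      apply hc2 (⟨i, hi⟩, ⟨j, hj⟩, ⟨k, hk⟩, b1, b2, b3)
      refine ⟨⟨?_, ?_, ?_⟩, ?_⟩
      · intro h; have := congrArg Fin.val h; simp at this; omega
      · intro h; have := congrArg Fin.val h; simp at this; omega
      · intro h; have := congrArg Fin.val h; simp at this; omega
      · simp only [hF i hi, hF j hj, hF k hk] at h0
        exact h0
    have hP := hno F hGP
    obtain ⟨θ, x, y, z, hθ, hx, hy, hz, hxy, hxz, hyz, hθn, hPat⟩ := hP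
    apply hc1 (fun l => ((θ l).1, ⟨(θ l).2, hθ l⟩), (x.1, ⟨x.2, hx⟩), (y.1, ⟨y.2, hy⟩), ⟨z, hz⟩)
    refine ⟨⟨?_, ?_, ?_, ?_⟩, ?_⟩
    · intro h; exact hxy (congrArg Fin.val h)
    · intro h; exact hxz (congrArg Fin.val h)
    · intro h; exact hyz (congrArg Fin.val h)
    · intro l
      obtain ⟨h1, h2, h3⟩ := hθn l
      refine ⟨?_, ?_, ?_⟩
      · intro h; exact h1 (congrArg Fin.val h)
      · intro h; exact h2 (congrArg Fin.val h)
      · intro h; exact h3 (congrArg Fin.val h)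
    · simp only [pt, hF _ (hθ _), hF _ hx, hF _ hy, hF _ hz] at hPat
      exact hPat
  have hmain := cover W hW (Q1 m P) (Q2 m P) hcov
  rw [hW1] at hmain
  have hb1 : ∀ q : Pos1 m, mass W (Q1 m P q) ≤ β := by
    intro q
    by_cases hv : (q.2.1.2 ≠ q.2.2.1.2 ∧ q.2.1.2 ≠ q.2.2.2 ∧ q.2.2.1.2 ≠ q.2.2.2 ∧
      (∀ l, (q.1 l).2 ≠ q.2.1.2 ∧ (q.1 l).2 ≠ q.2.2.1.2 ∧ (q.1 l).2 ≠ q.2.2.2))
    · have h := hOne m β hβ0.le ι w P hw hw1 hpat q.1 q.2.1 q.2.2.1 q.2.2.2 hv.1 hv.2.1 hv.2.2.1 hv.2.2.2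
      rw [mass_congr W (Q1 m P q) _ (fun f => ⟨fun h => h.2, fun h => ⟨hv, h⟩⟩)]
      exact h
    · rw [mass_false W (Q1 m P q) (fun f h => hv h.1)]
      exact hβ0.le
  have hb2 : ∀ q : Pos2 m, mass W (Q2 m P q) ≤ 2 * β := by
    intro q
    by_cases hv : (q.1 ≠ q.2.1 ∧ q.1 ≠ q.2.2.1 ∧ q.2.1 ≠ q.2.2.1)
    · have h := hTwo m β hβ0.le ι w P hw hw1 hlin q.1 q.2.1 q.2.2.1 q.2.2.2.1 q.2.2.2.2.1 q.2.2.2.2.2
        hv.1 hv.2.1 hv.2.2
      rw [mass_congr W (Q2 m P q) _ (fun f => ⟨fun h => h.2, fun h => ⟨hv, h⟩⟩)]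
      exact h
    · rw [mass_false W (Q2 m P q) (fun f h => hv h.1)]
      linarith
  have hs1 : ∑ q, mass W (Q1 m P q) ≤ K1 * β := by
    have := Finset.sum_le_card_nsmul (Finset.univ : Finset (Pos1 m)) (fun q => mass W (Q1 m P q)) β
      (fun q _ => hb1 q)
    rw [nsmul_eq_mul, Finset.card_univ] at this
    exact this
  have hs2 : ∑ q, mass W (Q2 m P q) ≤ K2 * (2 * β) := by
    have := Finset.sum_le_card_nsmul (Finset.univ : Finset (Pos2 m)) (fun q => mass W (Q2 m P q)) (2 * β)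
      (fun q _ => hb2 q)
    rw [nsmul_eq_mul, Finset.card_univ] at this
    exact this
  have hfin : K1 * β + K2 * (2 * β) < 1 := by
    have h2 : β * (2 * (K1 + 2 * K2 + 1)) = 1 := by
      rw [hβ]; field_simp
    nlinarith
  linarith

end Pool.Agent.W675.PT
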